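import Pool.Agent.Lib.MP_58cb87_lc_X.Pot
import Pool.Agent.Lib.MP_58cb87_lc_X.Small

/-!
Exact revealment of the iterated three-bit majority for one, two and three levels.
-/

namespace Pool.Agent.Results.MP_58cb87_lc.ExactValues

open Pool.Agent.MP_58cb87_lc

theorem le_dir : ∀ k : ℕ, revealment (iterMaj k) ≤ (5 / 6) ^ k
  | 0 => by simpa using revealment_le_one 0
  | k + 1 => by
      have h1 := revealment_submul 1 k
      have h2 := le_dir k
      have h3 := mul_le_mul St.Small.revealment_one h2 (revealment_nonneg _) (by norm_num)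
      have h4 : (5 / 6 : ℝ) * (5 / 6) ^ k = (5 / 6) ^ (k + 1) := by ring
      exact (h1.trans h3).trans h4.le

/-- The revealment of the iterated three-bit majority on `3`, `9` and `27` bits, and the
strict bound for all larger depths. -/
theorem result :
    revealment (iterMaj 1) = 5 / 6 ∧
    revealment (iterMaj 2) = 131 / 192 ∧
    revealment (iterMaj 3) = 15796051 / 28311552 ∧
    ∀ k : ℕ, 2 ≤ k → revealment (iterMaj k) < (5 / 6) ^ k := by
  refine ⟨le_antisymm St.Small.revealment_one ?_, le_antisymm St.Small.revealment_two ?_,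
    le_antisymm revealment_three ?_, ?_⟩
  · have h := le_revealment (iterMaj 1) (5 / 2) X.cost1
    have e : (5 / 2 : ℝ) / (Fintype.card (Fin (3 ^ 1)) : ℝ) = 5 / 6 := by
      rw [Fintype.card_fin]; norm_num
    rwa [e] at h
  · have h := le_revealment (iterMaj 2) (393 / 64) X.cost2
    have e : (393 / 64 : ℝ) / (Fintype.card (Fin (3 ^ 2)) : ℝ) = 131 / 192 := by
      rw [Fintype.card_fin]; norm_num
    rwa [e] at h
  · have h := le_revealment (iterMaj 3) (15796051 / 1048576) X.cost3
    have e : (15796051 / 1048576 : ℝ) / (Fintype.card (Fin (3 ^ 3)) : ℝ)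
        = 15796051 / 28311552 := by
      rw [Fintype.card_fin]; norm_num
    rwa [e] at h
  · intro k hk
    obtain ⟨l, rfl⟩ := Nat.exists_eq_add_of_le hk
    have h1 := revealment_submul 2 l
    rw [add_comm l 2] at h1
    have h2 := mul_le_mul St.Small.revealment_two (le_dir l) (revealment_nonneg _) (by norm_num)
    have h3 : (131 / 192 : ℝ) * (5 / 6) ^ l < (5 / 6) ^ (2 + l) := by
      rw [pow_add]
      exact mul_lt_mul_of_pos_right (by norm_num) (by positivity)
    exact (h1.trans h2).trans_lt h3

end Pool.Agent.Results.MP_58cb87_lc.ExactValues
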