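import Pool.Agent.Lib.MP_58cb87_lc.Lower

/-!
Lower bound for the revealment of the iterated three-bit majority.
-/

namespace Pool.Agent.Results.MP_58cb87_lc.LowerBound

open Pool.Agent.MP_58cb87_lc

/-- The revealment of the iterated three-bit majority on `3 ^ k` bits is at least `(23/30) ^ k`;
hence its decay exponent is at most `log (30/23) / log 3`. -/
theorem result :
    (∀ k : ℕ, (23 / 30 : ℝ) ^ k ≤ revealment (iterMaj k)) ∧
    (∀ k : ℕ, 1 ≤ k → -Real.log (revealment (iterMaj k)) / Real.log (3 ^ k)
      ≤ Real.log (30 / 23) / Real.log 3) := by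
  refine ⟨revealment_ge, fun k hk => ?_⟩
  have h := revealment_ge k
  have hpos : (0 : ℝ) < (23 / 30) ^ k := by positivity
  have h1 := Real.log_le_log hpos h
  rw [Real.log_pow] at h1
  have h3 : 0 < Real.log 3 := Real.log_pos (by norm_num)
  have hk' : (0 : ℝ) < k := by exact_mod_cast hk
  rw [Real.log_pow, div_le_div_iff₀ (by positivity) h3]
  have h4 : Real.log (30 / 23) = -Real.log (23 / 30) := by
    rw [← Real.log_inv]; norm_num
  rw [h4]
  nlinarith

end Pool.Agent.Results.MP_58cb87_lc.LowerBound
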