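import Pool.Agent.Lib.MP_58cb87_lc_T.Fin

/-!
The order of magnitude of the revealment of the iterated three-bit majority, up to a polynomial
factor in the number of levels, and the speed of convergence of the decay exponent.
-/

namespace Pool.Agent.Results.MP_58cb87_lc.OrderOfMagnitude

open Pool.Agent.MP_58cb87_lc Filter Topology

/-- There is `lam > 0` such that the revealment of the iterated three-bit majority on `3 ^ k` bits
lies between `lam ^ k` and `(10000 k) ^ 32 * lam ^ k` for all `k ≥ 1`. Hence the decay exponent
exists as a limit and equals `-log lam / log 3`; the exponent of every finite level is at most this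
limit, and differs from it by at most `32 log (10000 k) / (k log 3)`. -/
theorem result : ∃ lam : ℝ, 0 < lam ∧
    Tendsto (fun k : ℕ => -Real.log (revealment (iterMaj k)) / Real.log (3 ^ k)) atTop
      (𝓝 (-Real.log lam / Real.log 3)) ∧
    ∀ k : ℕ, 1 ≤ k →
      (lam ^ k ≤ revealment (iterMaj k) ∧
        revealment (iterMaj k) ≤ (10000 * (k : ℝ)) ^ 32 * lam ^ k) ∧
      (-Real.log (revealment (iterMaj k)) / Real.log (3 ^ k) ≤ -Real.log lam / Real.log 3 ∧
        -Real.log lam / Real.log 3 ≤ -Real.log (revealment (iterMaj k)) / Real.log (3 ^ k)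
          + 32 * Real.log (10000 * k) / (k * Real.log 3)) := by
  obtain ⟨lam, h0, h⟩ := Pool.Agent.MP58T.order_of_magnitude
  have h3 : 0 < Real.log 3 := Real.log_pos (by norm_num)
  have main : ∀ k : ℕ, 1 ≤ k →
      (-Real.log (revealment (iterMaj k)) / Real.log (3 ^ k) ≤ -Real.log lam / Real.log 3 ∧
        -Real.log lam / Real.log 3 ≤ -Real.log (revealment (iterMaj k)) / Real.log (3 ^ k)
          + 32 * Real.log (10000 * k) / (k * Real.log 3)) := by
    intro k hk
    obtain ⟨h1, h2⟩ := h k hk
    have hk' : (0 : ℝ) < k := by exact_mod_cast hk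
    have hp : 0 < revealment (iterMaj k) := lt_of_lt_of_le (pow_pos h0 k) h1
    have h4 := Real.log_le_log (pow_pos h0 k) h1
    have h5 := Real.log_le_log hp h2
    rw [Real.log_mul (by positivity) (by positivity), Real.log_pow, Real.log_pow] at h5
    rw [Real.log_pow] at h4
    push_cast at h5
    refine ⟨?_, ?_⟩
    · rw [Real.log_pow, div_le_div_iff₀ (by positivity) h3]
      nlinarith
    · have e : -Real.log (revealment (iterMaj k)) / Real.log (3 ^ k)
          + 32 * Real.log (10000 * k) / (k * Real.log 3)
          = (-Real.log (revealment (iterMaj k)) + 32 * Real.log (10000 * k))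
            / (k * Real.log 3) := by
        rw [Real.log_pow, ← add_div]
      rw [e, div_le_div_iff₀ h3 (by positivity)]
      nlinarith
  refine ⟨lam, h0, ?_, fun k hk => ⟨h k hk, main k hk⟩⟩
  have hlim : Tendsto (fun k : ℕ => 32 * Real.log (10000 * k) / (k * Real.log 3)) atTop
      (𝓝 0) := by
    have h6 : Tendsto (fun x : ℝ => Real.log x / x) atTop (𝓝 0) :=
      Real.isLittleO_log_id_atTop.tendsto_div_nhds_zero
    have h7 : Tendsto (fun k : ℕ => 10000 * (k : ℝ)) atTop atTop :=
      tendsto_natCast_atTop_atTop.const_mul_atTop (by norm_num)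
    have h8 := (h6.comp h7).const_mul (320000 / Real.log 3)
    rw [mul_zero] at h8
    refine h8.congr' ?_
    filter_upwards [eventually_ge_atTop 1] with k hk
    have hk' : (0 : ℝ) < k := by exact_mod_cast hk
    simp only [Function.comp]
    field_simp
    ring
  have hsub : Tendsto (fun k : ℕ => -Real.log lam / Real.log 3
      - 32 * Real.log (10000 * k) / (k * Real.log 3)) atTop (𝓝 (-Real.log lam / Real.log 3)) := by
    simpa using hlim.const_sub (-Real.log lam / Real.log 3)
  refine tendsto_of_tendsto_of_tendsto_of_le_of_le' hsub tendsto_const_nhds ?_ ?_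
  · filter_upwards [eventually_ge_atTop 1] with k hk
    linarith [(main k hk).2]
  · filter_upwards [eventually_ge_atTop 1] with k hk
    exact (main k hk).1

end Pool.Agent.Results.MP_58cb87_lc.OrderOfMagnitude
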