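import Pool.Agent.Lib.MP_58cb87_lc.Upper

/-!
Upper bound for the revealment of the iterated three-bit majority.
-/

namespace Pool.Agent.Results.MP_58cb87_lc.UpperBound

open Pool.Agent.MP_58cb87_lc Filter Topology

/-- An upper bound for the revealment of the iterated majority, and the resulting lower bound for
the decay exponent. -/
theorem result :
    (∀ k : ℕ, revealment (iterMaj k) ≤ (15796051 / 28311552 : ℝ) ^ (k / 3)) ∧
    Real.log (28311552 / 15796051) / Real.log 27 ≤
      liminf (fun k : ℕ => -Real.log (revealment (iterMaj k)) / Real.log (3 ^ k)) atTop := by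
  refine ⟨revealment_le_pow, ?_⟩
  rw [tendsto_expo.liminf_eq]
  exact expo_ge

end Pool.Agent.Results.MP_58cb87_lc.UpperBound
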